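import Pool.Agent.Results.MP_a50aef_co.FairAndUnderdog

/-!
# Monotonicity of the values of the biased Maker-Breaker clique games

The board, the positions, the plays and the legal strategies of the `(m:b)` clique game on `K_N`
are those of the starting file `MP_ba8873_co.LowerBound`:

* a strategy `σ` of Maker chooses in every position exactly `m` free edges (all free edges, if
  fewer than `m` are left), `LegalStrategy m σ`;
* a legal sequence of replies of Breaker, `LegalReplies b σ R`, consists of exactly `b` free edges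
  in each turn (all of them, if fewer than `b` are left);
* `MakerCanBuild m b N q`: some legal strategy of Maker owns a copy of `K_q` when all edges are
  claimed, whatever Breaker does.
-/

set_option autoImplicit false

namespace Pool.Agent.Results.MP_d32cb0_co.Comparison

open Finset Filter Pool.Agent.Results.MP_ba8873_co.LowerBound
open Pool.Agent.Results.MP_a50aef_co.FairAndUnderdog

/-- `f_N(m,b)`: the largest `q` such that Maker has a strategy which guarantees a `K_q` in his
edges in the `(m:b)` game on `K_N`. -/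
noncomputable def f (m b N : ℕ) : ℕ := sSup {q : ℕ | MakerCanBuild m b N q}

/-- The play of the strategy `σ` of Maker against the strategy `τ` of Breaker. -/
def duel {N : ℕ} (σ : Pos N → Finset (Sym2 (Fin N)))
    (τ : Pos N → Finset (Sym2 (Fin N)) → Finset (Sym2 (Fin N))) : ℕ → Pos N
  | 0 => ⟨∅, ∅⟩
  | i + 1 => ⟨(duel σ τ i).maker ∪ σ (duel σ τ i),
      (duel σ τ i).breaker ∪ τ (duel σ τ i) (σ (duel σ τ i))⟩

lemma play_duel {N : ℕ} (σ : Pos N → Finset (Sym2 (Fin N)))
    (τ : Pos N → Finset (Sym2 (Fin N)) → Finset (Sym2 (Fin N))) (i : ℕ) :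
    play σ (fun i => τ (duel σ τ i) (σ (duel σ τ i))) i = duel σ τ i := by
  induction i with
  | zero => rfl
  | succ i ih =>
    rw [play, duel, ih]

lemma pos_duel {N : ℕ} (σ : Pos N → Finset (Sym2 (Fin N)))
    (τ : Pos N → Finset (Sym2 (Fin N)) → Finset (Sym2 (Fin N))) (i : ℕ) :
    pos (fun i => σ (duel σ τ i)) (fun i => τ (duel σ τ i) (σ (duel σ τ i))) i = duel σ τ i := by
  induction i with
  | zero => rfl
  | succ i ih =>
    rw [pos, duel, ih]

lemma legalReplies_duel {N b : ℕ} (σ : Pos N → Finset (Sym2 (Fin N)))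
    (τ : Pos N → Finset (Sym2 (Fin N)) → Finset (Sym2 (Fin N)))
    (hτ : ∀ p Q, LegalBreaker b p Q (τ p Q)) :
    LegalReplies b σ (fun i => τ (duel σ τ i) (σ (duel σ τ i))) := by
  intro i
  rw [play_duel]
  exact hτ _ _

/-- A strategy of Breaker which prevents `K_q` beats every strategy of Maker. -/
lemma not_build_of_prevent {m b N q : ℕ} (h : BreakerCanPrevent m b N q) :
    ¬ MakerCanBuild m b N q := by
  rintro ⟨σ, hσ, hwin⟩
  obtain ⟨τ, hτ, hprev⟩ := h
  obtain ⟨i, -, hc⟩ := hwin _ (legalReplies_duel σ τ hτ)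
  rw [play_duel] at hc
  refine hprev (fun i => σ (duel σ τ i)) (fun i => τ (duel σ τ i) (σ (duel σ τ i)))
    ?_ ?_ i ?_
  · intro i
    rw [pos_duel]
    exact hσ _
  · intro i
    rw [pos_duel]
  · rw [pos_duel]
    exact hc

lemma exists_legalBreaker (b N : ℕ) :
    ∃ τ : Pos N → Finset (Sym2 (Fin N)) → Finset (Sym2 (Fin N)),
      ∀ p Q, LegalBreaker b p Q (τ p Q) := by
  have h : ∀ (p : Pos N) (Q : Finset (Sym2 (Fin N))), ∃ R, LegalBreaker b p Q R := by
    intro p Q
    obtain ⟨R, h1, h2⟩ := exists_subset_card_eq (s := free p \ Q)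
      (n := min b (free p \ Q).card) (min_le_right _ _)
    exact ⟨R, h1, h2⟩
  choose τ hτ using h
  exact ⟨τ, hτ⟩

lemma le_of_build {m b N q : ℕ} (h : MakerCanBuild m b N q) : q ≤ N := by
  obtain ⟨σ, hσ, hwin⟩ := h
  obtain ⟨τ, hτ⟩ := exists_legalBreaker b N
  obtain ⟨i, -, S, hS, -⟩ := hwin _ (legalReplies_duel σ τ hτ)
  have := card_le_univ S
  rw [hS, Fintype.card_fin] at this
  exact this

lemma le_f {m b N q : ℕ} (h : MakerCanBuild m b N q) : q ≤ f m b N :=
  le_csSup ⟨N, fun _ h => le_of_build h⟩ h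

/-- Sanity check: `f_N(m,b)` is the largest `q` for which Maker wins the `K_q`-game. -/
lemma f_isGreatest {m b N q : ℕ} (h : MakerCanBuild m b N q) :
    IsGreatest {q : ℕ | MakerCanBuild m b N q} (f m b N) :=
  ⟨Nat.sSup_mem ⟨q, h⟩ ⟨N, fun _ h => le_of_build h⟩, fun _ h => le_f h⟩

/-- Maker's bound. -/
lemma lower (m b : ℕ) (hm : 1 ≤ m) (hb : 1 ≤ b) :
    ∃ C : ℝ, ∀ᶠ N : ℕ in atTop, 2 * Real.logb (c m b) N
      - 2 * Real.logb (c m b) (Real.logb (c m b) N) - C ≤ f m b N ∧
      MakerCanBuild m b N (f m b N) := by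
  obtain ⟨C, N₀, h⟩ := Pool.Agent.Helper340.MB.clique_forces m b hm hb
  have hmp : (0 : ℝ) < m := by exact_mod_cast hm
  have hcc : Pool.Agent.Helper340.MB.cc m b = c m b := by
    unfold Pool.Agent.Helper340.MB.cc c
    field_simp
  rw [hcc] at h
  refine ⟨C + 1, ?_⟩
  filter_upwards [eventually_ge_atTop N₀] with N hN
  obtain ⟨h7, hf⟩ := h N hN
  obtain ⟨σ, hσ, hplay⟩ := Pool.Agent.Helper340.MB.exists_strategy hm hf
  have hbuild : MakerCanBuild m b N ⌊2 * Real.logb (c m b) N
      - 2 * Real.logb (c m b) (Real.logb (c m b) N) - C⌋₊ := by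
    refine ⟨fun p => σ p.maker p.breaker, fun p => hσ p.maker p.breaker, ?_⟩
    intro R hR
    obtain ⟨i, hi, hg⟩ := hplay (fun i => (play (fun p => σ p.maker p.breaker) R i).maker)
      (fun i => (play (fun p => σ p.maker p.breaker) R i).breaker) R rfl rfl
      (fun _ => rfl) (fun _ => rfl) (fun i => hR i)
    exact ⟨i, hi, Pool.Agent.Helper340.MB.HasClique.mono le_rfl hg⟩
  refine ⟨?_, (f_isGreatest hbuild).1⟩
  have h1 : ((⌊2 * Real.logb (c m b) N
      - 2 * Real.logb (c m b) (Real.logb (c m b) N) - C⌋₊ : ℕ) : ℝ) ≤ f m b N := by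
    exact_mod_cast le_f hbuild
  have h2 := Nat.lt_floor_add_one (2 * Real.logb (c m b) N
      - 2 * Real.logb (c m b) (Real.logb (c m b) N) - C)
  linarith

/-- Breaker's bound. -/
lemma upper (m b : ℕ) (hm : 1 ≤ m) (hb : 1 ≤ b) {ε : ℝ} (hε : 0 < ε) :
    ∀ᶠ N : ℕ in atTop, (f m b N : ℝ) < (1 + ε) * (2 * m * Real.logb (1 + b) N) := by
  obtain ⟨C, hC⟩ := lower m b hm hb
  have h := Pool.Agent.Y418.BG.Breaker.eventually_small (a := m) (b := b) (r := 2) hm hb le_rfl hε
  filter_upwards [h, hC] with N hN hC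
  by_contra hcon
  push Not at hcon
  refine not_build_of_prevent (canPrevent_of_small hm (hN (f m b N) ?_)) hC.2
  refine le_trans (le_of_eq ?_) hcon
  have e1 : (1 : ℝ) / (((2 : ℕ) : ℝ) - 1) = 1 := by norm_num
  rw [e1, Real.rpow_one]
  have e2 : ((Nat.factorial 2 : ℕ) : ℝ) = 2 := by norm_num [Nat.factorial]
  rw [e2]
  ring

lemma one_lt_c {m b : ℕ} (hm : 1 ≤ m) (hb : 1 ≤ b) : 1 < c m b := by
  have hmp : (0 : ℝ) < m := by exact_mod_cast hm
  have hbp : (0 : ℝ) < b := by exact_mod_cast hb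
  unfold c
  rw [lt_div_iff₀ hmp]
  linarith

/-- **Comparison theorem.** -/
theorem comparison (m b m' b' : ℕ) (hm : 1 ≤ m) (hb : 1 ≤ b) (hm' : 1 ≤ m') (hb' : 1 ≤ b')
    (h : (((m : ℝ) + b) / m) ^ m' < 1 + b') :
    Tendsto (fun N : ℕ => (f m b N : ℝ) - f m' b' N) atTop atTop := by
  have hc := one_lt_c hm hb
  have hc0 : 0 < Real.log (c m b) := Real.log_pos hc
  have hmp' : (0 : ℝ) < m' := by exact_mod_cast hm'
  have hbp' : (0 : ℝ) < b' := by exact_mod_cast hb'
  have hB : 0 < Real.log (1 + b' : ℝ) := Real.log_pos (by linarith)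
  have hlt : (m' : ℝ) * Real.log (c m b) < Real.log (1 + b' : ℝ) := by
    have h1 : Real.log (c m b ^ m') < Real.log (1 + b' : ℝ) :=
      Real.log_lt_log (by positivity) h
    rwa [Real.log_pow] at h1
  -- choose `ε`
  obtain ⟨ε, hε, hε2⟩ : ∃ ε : ℝ, 0 < ε ∧ (1 + ε) * (m' * Real.log (c m b)) <
      Real.log (1 + b' : ℝ) := by
    have hx : 0 < (m' : ℝ) * Real.log (c m b) := by positivity
    refine ⟨(Real.log (1 + b' : ℝ) / (m' * Real.log (c m b)) - 1) / 2, ?_, ?_⟩
    · have : 1 < Real.log (1 + b' : ℝ) / (m' * Real.log (c m b)) := by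
        rw [lt_div_iff₀ hx]; linarith
      linarith
    · have h2 : Real.log (1 + b' : ℝ) / (m' * Real.log (c m b)) * (m' * Real.log (c m b)) =
        Real.log (1 + b' : ℝ) := div_mul_cancel₀ _ hx.ne'
      nlinarith
  obtain ⟨C, hC⟩ := lower m b hm hb
  have hU := upper m' b' hm' hb' hε
  set κ : ℝ := 2 / Real.log (c m b) - (1 + ε) * (2 * m') / Real.log (1 + b' : ℝ) with hκ
  have hκ0 : 0 < κ := by
    rw [hκ, sub_pos, div_lt_div_iff₀ hB hc0]
    nlinarith
  -- the main term
  have hy : Tendsto (fun N : ℕ => Real.log (N : ℝ)) atTop atTop :=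
    Real.tendsto_log_atTop.comp tendsto_natCast_atTop_atTop
  have hmain : Tendsto (fun y : ℝ => κ * y - 2 * (Real.log (y / Real.log (c m b)) /
      Real.log (c m b)) - C) atTop atTop := by
    have hlo : (fun y : ℝ => Real.log (y / Real.log (c m b))) =o[atTop] (fun y : ℝ => y) := by
      have h1 : (fun y : ℝ => Real.log (y / Real.log (c m b))) =o[atTop]
          (fun y : ℝ => y / Real.log (c m b)) :=
        Real.isLittleO_log_id_atTop.comp_tendsto (tendsto_id.atTop_div_const hc0)
      refine h1.trans_isBigO ?_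
      have h2 : (fun y : ℝ => y / Real.log (c m b)) = fun y => (Real.log (c m b))⁻¹ * y := by
        funext y; rw [div_eq_inv_mul]
      rw [h2]
      exact Asymptotics.isBigO_const_mul_self _ _ _
    have h3 := hlo.bound (show (0 : ℝ) < κ * Real.log (c m b) / 4 by positivity)
    have h4 : Tendsto (fun y : ℝ => κ / 2 * y - C) atTop atTop :=
      tendsto_atTop_add_const_right _ _ (tendsto_id.const_mul_atTop (by positivity))
    refine tendsto_atTop_mono' _ ?_ h4
    filter_upwards [h3, eventually_ge_atTop 0] with y h5 h6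
    rw [Real.norm_eq_abs, Real.norm_eq_abs, abs_of_nonneg h6] at h5
    have h7 := (le_abs_self _).trans h5
    have h8 : Real.log (y / Real.log (c m b)) / Real.log (c m b) ≤ κ / 4 * y := by
      rw [div_le_iff₀ hc0]
      linarith
    linarith
  refine tendsto_atTop_mono' _ ?_ (hmain.comp hy)
  filter_upwards [hC, hU] with N hC hU
  have h1 := hC.1
  simp only [Function.comp]
  have e1 : Real.logb (c m b) N = Real.log N / Real.log (c m b) := rfl
  have e2 : Real.logb (c m b) (Real.logb (c m b) N) =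
    Real.log (Real.log N / Real.log (c m b)) / Real.log (c m b) := rfl
  have e3 : Real.logb (1 + b' : ℝ) N = Real.log N / Real.log (1 + b' : ℝ) := rfl
  rw [e2, e1] at h1
  rw [e3] at hU
  have e4 : κ * Real.log N = 2 * (Real.log N / Real.log (c m b)) -
      (1 + ε) * (2 * m' * (Real.log N / Real.log (1 + b' : ℝ))) := by
    rw [hκ]; ring
  rw [e4]
  linarith

/-- `f_N(1,b)` is asymptotically `2 log_{1+b} N`. -/
theorem one_asymp (b : ℕ) (hb : 1 ≤ b) :
    Tendsto (fun N : ℕ => (f 1 b N : ℝ) / Real.logb (1 + b) N) atTop (nhds 2) := by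
  have hbp : (0 : ℝ) < b := by exact_mod_cast hb
  have hc : c 1 b = 1 + b := by unfold c; norm_num
  have hB : 0 < Real.log (1 + b : ℝ) := Real.log_pos (by linarith)
  obtain ⟨C, hC⟩ := lower 1 b le_rfl hb
  rw [hc] at hC
  have hL : Tendsto (fun N : ℕ => Real.logb (1 + b : ℝ) N) atTop atTop :=
    (Real.tendsto_logb_atTop (by linarith)).comp tendsto_natCast_atTop_atTop
  rw [Metric.tendsto_nhds]
  intro ε hε
  have hU := upper 1 b le_rfl hb (ε := ε / 4) (by positivity)
  have h1 : Tendsto (fun x : ℝ => (2 * Real.logb (1 + b : ℝ) x + C) / x) atTop (nhds 0) := by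
    have h2 : Tendsto (fun x : ℝ => Real.log x / x) atTop (nhds 0) :=
      Real.isLittleO_log_id_atTop.tendsto_div_nhds_zero
    have h3 : Tendsto (fun x : ℝ => C / x) atTop (nhds 0) := tendsto_const_nhds.div_atTop tendsto_id
    have h4 := ((h2.const_mul (2 / Real.log (1 + b : ℝ))).add h3)
    simp only [mul_zero, add_zero] at h4
    refine h4.congr (fun x => ?_)
    unfold Real.logb
    ring
  have h5 := (Metric.tendsto_nhds.1 (h1.comp hL)) (ε / 2) (by positivity)
  filter_upwards [hC, hU, h5, hL.eventually_gt_atTop 0] with N hC hU h5 hL0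
  rw [Real.dist_eq, abs_lt]
  rw [Real.dist_eq, sub_zero] at h5
  have h6 := (abs_lt.1 h5).2
  simp only [Function.comp] at h6
  rw [div_lt_iff₀ hL0] at h6
  constructor
  · rw [lt_sub_iff_add_lt, lt_div_iff₀ hL0]
    nlinarith [hC.1]
  · rw [sub_lt_iff_lt_add, div_lt_iff₀ hL0]
    push_cast at hU
    nlinarith

/-- **Main theorem.** -/
theorem result :
    -- the comparison theorem
    (∀ m b m' b' : ℕ, 1 ≤ m → 1 ≤ b → 1 ≤ m' → 1 ≤ b' → (((m : ℝ) + b) / m) ^ m' < 1 + b' →
      Tendsto (fun N : ℕ => (f m b N : ℝ) - f m' b' N) atTop atTop) ∧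
    -- the full assertion of the question for `m = 1` and every `b`
    (∀ b : ℕ, 1 ≤ b →
      (∀ᶠ N : ℕ in atTop, f 1 (b + 1) N < f 1 b N ∧ f 1 b N < f 2 b N) ∧
      Tendsto (fun N : ℕ => (f 1 b N : ℝ) - f 1 (b + 1) N) atTop atTop ∧
      Tendsto (fun N : ℕ => (f 2 b N : ℝ) - f 1 b N) atTop atTop) ∧
    -- and of its first half for `b = 1` and every `m`
    (∀ m : ℕ, 1 ≤ m → (∀ᶠ N : ℕ in atTop, f m 2 N < f m 1 N) ∧
      Tendsto (fun N : ℕ => (f m 1 N : ℝ) - f m 2 N) atTop atTop) ∧
    -- and of its second half for three further pairs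
    (∀ m b : ℕ, (m = 2 ∧ b = 1) ∨ (m = 2 ∧ b = 2) ∨ (m = 3 ∧ b = 1) →
      (∀ᶠ N : ℕ in atTop, f m b N < f (m + 1) b N) ∧
      Tendsto (fun N : ℕ => (f (m + 1) b N : ℝ) - f m b N) atTop atTop) ∧
    -- the asymptotic value for `m = 1`
    (∀ b : ℕ, 1 ≤ b →
      Tendsto (fun N : ℕ => (f 1 b N : ℝ) / Real.logb (1 + b) N) atTop (nhds 2)) ∧
    -- `f m b N` is the largest `q` for which Maker wins
    (∀ m b : ℕ, 1 ≤ m → 1 ≤ b → ∀ᶠ N : ℕ in atTop,
      IsGreatest {q : ℕ | MakerCanBuild m b N q} (f m b N)) := by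
  have key : ∀ u v : ℕ → ℕ, Tendsto (fun N : ℕ => (u N : ℝ) - v N) atTop atTop →
      ∀ᶠ N : ℕ in atTop, v N < u N := by
    intro u v h
    filter_upwards [h.eventually_gt_atTop 0] with N hN
    have : (v N : ℝ) < u N := by linarith
    exact_mod_cast this
  refine ⟨comparison, ?_, ?_, ?_, one_asymp, ?_⟩
  · intro b hb
    have hbR : (1 : ℝ) ≤ b := by exact_mod_cast hb
    have h1 : Tendsto (fun N : ℕ => (f 1 b N : ℝ) - f 1 (b + 1) N) atTop atTop := by
      apply comparison 1 b 1 (b + 1) le_rfl hb le_rfl (by omega)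
      push_cast
      norm_num
    have h2 : Tendsto (fun N : ℕ => (f 2 b N : ℝ) - f 1 b N) atTop atTop := by
      apply comparison 2 b 1 b (by norm_num) hb le_rfl hb
      push_cast
      norm_num
      linarith
    exact ⟨(key _ _ h1).and (key _ _ h2), h1, h2⟩
  · intro m hm
    have hmp : (0 : ℝ) < m := by exact_mod_cast hm
    have h1 : Tendsto (fun N : ℕ => (f m 1 N : ℝ) - f m 2 N) atTop atTop := by
      apply comparison m 1 m 2 hm le_rfl hm (by norm_num)
      have h2 : (((m : ℝ) + (1 : ℕ)) / m) ≤ Real.exp (1 / m) := by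
        have h3 := Real.add_one_le_exp (1 / (m : ℝ))
        have h4 : (((m : ℝ) + (1 : ℕ)) / m) = 1 / (m : ℝ) + 1 := by
          field_simp
          push_cast
          ring
        rw [h4]; exact h3
      calc (((m : ℝ) + (1 : ℕ)) / m) ^ m ≤ Real.exp (1 / m) ^ m :=
            pow_le_pow_left₀ (by positivity) h2 _
        _ = Real.exp 1 := by
            rw [← Real.exp_nat_mul]
            congr 1
            field_simp
        _ < 1 + (2 : ℕ) := by
            have := Real.exp_one_lt_d9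
            push_cast
            linarith
    exact ⟨key _ _ h1, h1⟩
  · intro m b h
    have h1 : Tendsto (fun N : ℕ => (f (m + 1) b N : ℝ) - f m b N) atTop atTop := by
      rcases h with ⟨rfl, rfl⟩ | ⟨rfl, rfl⟩ | ⟨rfl, rfl⟩
      · exact comparison 3 1 2 1 (by norm_num) (by norm_num) (by norm_num) (by norm_num)
          (by norm_num)
      · exact comparison 3 2 2 2 (by norm_num) (by norm_num) (by norm_num) (by norm_num)
          (by norm_num)
      · exact comparison 4 1 3 1 (by norm_num) (by norm_num) (by norm_num) (by norm_num)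
          (by norm_num)
    exact ⟨key _ _ h1, h1⟩
  · intro m b hm hb
    obtain ⟨C, hC⟩ := lower m b hm hb
    filter_upwards [hC] with N hN
    exact f_isGreatest hN.2

end Pool.Agent.Results.MP_d32cb0_co.Comparison
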